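import Pool.Agent.Y370.Loew.Near

/-!
# Convex bodies arbitrarily close to the ball with exactly one centroidal plane

Stronger form of the starting result `OnePlane`: the bodies with exactly one centroidal plane exist
in every neighbourhood of the unit ball, with centroid at the centre of the ball and with a real
analytic radial function.
-/

set_option autoImplicit false

open MeasureTheory Module
open scoped ContDiff

namespace Pool.Agent.Results.MP_be4961_gt.NearBall

/-- A convex body in three-dimensional Euclidean space: a compact convex set with nonempty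
interior. -/
def IsConvexBody (K : Set (EuclideanSpace ℝ (Fin 3))) : Prop :=
  IsCompact K ∧ Convex ℝ K ∧ (interior K).Nonempty

/-- The centroid `(1 / vol K) ∫_K x dx`. -/
noncomputable def centroid (K : Set (EuclideanSpace ℝ (Fin 3))) : EuclideanSpace ℝ (Fin 3) :=
  ((volume K).toReal)⁻¹ • ∫ x in K, x

/-- The centroid `(1 / area (K ∩ H)) ∫_{K ∩ H} x dA` of the section `K ∩ H`, where the area
measure is Mathlib's two-dimensional Euclidean Hausdorff measure `μHE[2]`, which is Lebesgue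
measure (area) on every plane. -/
noncomputable def sectionCentroid (K : Set (EuclideanSpace ℝ (Fin 3)))
    (H : AffineSubspace ℝ (EuclideanSpace ℝ (Fin 3))) : EuclideanSpace ℝ (Fin 3) :=
  (((μHE[2] : Measure (EuclideanSpace ℝ (Fin 3))) (K ∩ (H : Set (EuclideanSpace ℝ (Fin 3))))).toReal)⁻¹ •
    ∫ x in K ∩ (H : Set (EuclideanSpace ℝ (Fin 3))), x
      ∂(μHE[2] : Measure (EuclideanSpace ℝ (Fin 3)))

/-- `H` is a plane through the centroid `g` of `K` such that the centroid of `K ∩ H` is `g`. -/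
def IsCentroidalPlane (K : Set (EuclideanSpace ℝ (Fin 3)))
    (H : AffineSubspace ℝ (EuclideanSpace ℝ (Fin 3))) : Prop :=
  finrank ℝ H.direction = 2 ∧ centroid K ∈ H ∧ sectionCentroid K H = centroid K

/-- For every `η > 0` there is a convex body `K` in three-dimensional space, between the balls of
radius `1 - η` and `1 + η` around its centroid `0`, such that the cube of its radial function is the
restriction to the unit sphere of a real analytic function `h` within distance `η` of `1`, with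
exactly one centroidal plane. -/
theorem result : ∀ η : ℝ, 0 < η → ∃ (K : Set (EuclideanSpace ℝ (Fin 3)))
    (h : EuclideanSpace ℝ (Fin 3) → ℝ),
    IsConvexBody K ∧ centroid K = 0 ∧
    Metric.closedBall 0 (1 - η) ⊆ K ∧ K ⊆ Metric.closedBall 0 (1 + η) ∧
    ContDiff ℝ ω h ∧ (∀ x, ‖x‖ = 1 → |h x - 1| ≤ η) ∧ K = {x | ‖x‖ ^ 3 ≤ h (‖x‖⁻¹ • x)} ∧
    ∃! H : AffineSubspace ℝ (EuclideanSpace ℝ (Fin 3)), IsCentroidalPlane K H := by
  intro η hη
  have hη' : 0 < min η (1 / 2) := lt_min hη (by norm_num)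
  obtain ⟨h, hh, h1, K, hK, hc, hconv, hint, hI, H0, hH0, huniq⟩ :=
    Pool.Agent.Y370.Loew.nearMain (min η (1 / 2)) hη'
  have hcen : centroid K = 0 := by
    unfold centroid; rw [hI, smul_zero]
  have key : ∀ H : AffineSubspace ℝ (EuclideanSpace ℝ (Fin 3)), IsCentroidalPlane K H ↔
      (finrank ℝ H.direction = 2 ∧ (0 : EuclideanSpace ℝ (Fin 3)) ∈ H ∧
      (⨍ x in K ∩ (H : Set (EuclideanSpace ℝ (Fin 3))), x
        ∂(μHE[2] : Measure (EuclideanSpace ℝ (Fin 3)))) = 0) := by
    intro H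
    unfold IsCentroidalPlane
    rw [hcen]
    unfold sectionCentroid
    rw [setAverage_eq]
    rfl
  have hdir : ∀ x : EuclideanSpace ℝ (Fin 3), x ≠ 0 → ‖‖x‖⁻¹ • x‖ = 1 := by
    intro x hx
    rw [norm_smul, norm_inv, norm_norm]
    exact inv_mul_cancel₀ (norm_pos_iff.2 hx).ne'
  have hm1 := min_le_left η (1 / 2)
  have hm2 := min_le_right η (1 / 2)
  have hKe : K = {x | ‖x‖ ^ 3 ≤ h (‖x‖⁻¹ • x)} := hK
  refine ⟨K, h, ⟨hc, hconv, ⟨0, hint⟩⟩, hcen, ?_, ?_, hh, fun x hx => (h1 x hx).trans hm1, hKe,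
    H0, (key H0).mpr hH0, fun H hH => huniq H ((key H).mp hH)⟩
  · intro x hx
    rw [mem_closedBall_zero_iff] at hx
    rcases eq_or_ne x 0 with rfl | hx0
    · exact interior_subset hint
    · rw [hKe]
      show ‖x‖ ^ 3 ≤ h (‖x‖⁻¹ • x)
      have h2 := (abs_le.1 (h1 _ (hdir x hx0))).1
      have h3 : 0 < ‖x‖ := norm_pos_iff.2 hx0
      have h4 : ‖x‖ ≤ 1 := by linarith
      have h5 : ‖x‖ ^ 3 ≤ ‖x‖ := by
        have : ‖x‖ ^ 3 = ‖x‖ * ‖x‖ ^ 2 := by ring
        rw [this]
        have h6 : ‖x‖ ^ 2 ≤ 1 := pow_le_one₀ h3.le h4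
        nlinarith
      linarith
  · intro x hx
    rw [mem_closedBall_zero_iff]
    by_contra hcon
    push Not at hcon
    have hx0 : x ≠ 0 := by
      rintro rfl
      rw [norm_zero] at hcon; linarith
    rw [hKe] at hx
    have h2 : ‖x‖ ^ 3 ≤ h (‖x‖⁻¹ • x) := hx
    have h3 := (abs_le.1 (h1 _ (hdir x hx0))).2
    have h4 : 1 < ‖x‖ := by linarith
    have h5 : ‖x‖ ≤ ‖x‖ ^ 3 := by
      have : ‖x‖ ^ 3 = ‖x‖ * ‖x‖ ^ 2 := by ring
      rw [this]
      have h6 : 1 ≤ ‖x‖ ^ 2 := one_le_pow₀ h4.le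
      nlinarith
    linarith

end Pool.Agent.Results.MP_be4961_gt.NearBall
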